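import Pool.Agent.Y782.WU.Stm

set_option autoImplicit false

open MeasureTheory ProbabilityTheory Filter Topology
open scoped ENNReal NNReal BigOperators unitInterval

namespace Pool.Agent.Y826.WU
open Pool.Agent.Y782.WU

lemma rst_adj {V : Type} (G : SimpleGraph V) (C : Set V) (a b : V) :
    (rst G C).Adj a b ↔ G.Adj a b ∧ a ∈ C ∧ b ∈ C := by
  unfold rst
  rw [SimpleGraph.fromRel_adj]
  constructor
  · rintro ⟨h, h1 | h1⟩
    · exact h1
    · exact ⟨h1.1.symm, h1.2.2, h1.2.1⟩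
  · rintro ⟨h, h1, h2⟩
    exact ⟨h.ne, Or.inl ⟨h, h1, h2⟩⟩

lemma cls_sub {V : Type} (G : SimpleGraph V) (A : Finset V) (x : V) (hx : x ∈ A) :
    ∀ w ∈ cls (rst G A) x, w ∈ A := by
  have key : ∀ (u w : V) (_ : (rst G (A : Set V)).Walk u w), u ∈ A → w ∈ A := by
    intro u w p
    induction p with
    | nil => exact fun h => h
    | cons h p ih => exact fun _ => ih (by simpa using ((rst_adj G _ _ _).1 h).2.2)
  intro w hw
  obtain ⟨p⟩ := hw
  exact key x w p hx

lemma finD {V : Type} (G : SimpleGraph V) (A : Finset V) (hlf : ∀ v, (G.neighborSet v).Finite) :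
    {e : Sym2 V | e ∈ G.edgeSet ∧ ∃ v ∈ e, v ∈ A}.Finite := by
  refine Set.Finite.subset (Set.Finite.biUnion A.finite_toSet
    (fun v _ => (hlf v).image (fun w => s(v, w)))) ?_
  rintro e ⟨he, v, hve, hvA⟩
  obtain ⟨w, rfl⟩ := Sym2.mem_iff_exists.1 hve
  refine Set.mem_iUnion₂.2 ⟨v, hvA, w, ?_, rfl⟩
  exact he

lemma out_s {V : Type} (e : Sym2 V) : s((Quot.out e).1, (Quot.out e).2) = e := Quot.out_eq e

lemma out_inj {V : Type} {e e' : Sym2 V} (h : Quot.out e = Quot.out e') : e = e' := by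
  rw [← out_s e, ← out_s e', h]

lemma ineq1 {f1 f2 g1 g2 η : ℝ} (hη : 0 < η) (_hf1 : 0 ≤ f1) (_hf1' : f1 ≤ 1) (hf2 : 0 ≤ f2)
    (hf2' : f2 ≤ 1) (hg1 : 0 ≤ g1) (hg1' : g1 ≤ 1) :
    (f1 * g1 - f2 * g2) ^ 2 ≤ (1 + η) * (f1 - f2) ^ 2 + (1 + 1 / η) * (g1 - g2) ^ 2 := by
  set u := g1 * (f1 - f2) with hu
  set v := f2 * (g1 - g2) with hv
  have h0 : f1 * g1 - f2 * g2 = u + v := by rw [hu, hv]; ring
  have hu2 : u ^ 2 ≤ (f1 - f2) ^ 2 := by
    rw [hu, mul_pow]
    have : g1 ^ 2 ≤ 1 := by nlinarith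
    nlinarith [sq_nonneg (f1 - f2)]
  have hv2 : v ^ 2 ≤ (g1 - g2) ^ 2 := by
    rw [hv, mul_pow]
    have : f2 ^ 2 ≤ 1 := by nlinarith
    nlinarith [sq_nonneg (g1 - g2)]
  have h1 : (u + v) ^ 2 ≤ (1 + η) * u ^ 2 + (1 + 1 / η) * v ^ 2 := by
    have h2 : (1 + η) * u ^ 2 + (1 + 1 / η) * v ^ 2 - (u + v) ^ 2 = (η * u - v) ^ 2 / η := by
      field_simp
      ring
    have h3 : 0 ≤ (η * u - v) ^ 2 / η := by positivity
    linarith
  rw [h0]
  have h4 : 0 < 1 / η := by positivity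
  nlinarith

lemma ineq2 {f1 g1 η : ℝ} (hη : 0 < η) (hf1 : 0 ≤ f1) (hf1' : f1 ≤ 1) :
    (f1 * g1) ^ 2 ≤ (1 + 1 / η) * g1 ^ 2 := by
  have h4 : 0 < 1 / η := by positivity
  have : f1 ^ 2 ≤ 1 := by nlinarith
  rw [mul_pow]
  nlinarith [sq_nonneg g1]

lemma NS_le {W E : Type} (M : FG W E) (P : Finset E → Prop) : NS M ∅ ∅ P ≤ NS M ∅ ∅ tr := by
  classical
  unfold NS
  refine Finset.card_le_card fun S hS => ?_
  rw [Finset.mem_filter] at hS ⊢
  exact ⟨hS.1, hS.2.1, hS.2.2.1, hS.2.2.2.1, trivial⟩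

/-- the energy of the test function over the edges -/
lemma energy {V : Type} (G : SimpleGraph V) (g : V → ℝ) (δ : ℝ) (hδ : 0 ≤ δ)
    (D : Finset (Sym2 V)) (hD : ∀ e ∈ D, e ∈ G.edgeSet)
    (h : open Classical in ∑' v, ∑' w, (if G.Adj v w then ENNReal.ofReal ((g v - g w) ^ 2) else 0) ≤
      ENNReal.ofReal δ) :
    ∑ e ∈ D, (g (Quot.out e).1 - g (Quot.out e).2) ^ 2 ≤ δ := by
  classical
  rw [← ENNReal.ofReal_le_ofReal_iff hδ, ENNReal.ofReal_sum_of_nonneg (fun _ _ => sq_nonneg _)]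
  refine le_trans ?_ h
  have h1 : ∑' v, ∑' w, (if G.Adj v w then ENNReal.ofReal ((g v - g w) ^ 2) else 0) =
      ∑' p : V × V, (if G.Adj p.1 p.2 then ENNReal.ofReal ((g p.1 - g p.2) ^ 2) else 0) :=
    (ENNReal.tsum_prod (f := fun v w => if G.Adj v w then ENNReal.ofReal ((g v - g w) ^ 2) else 0)).symm
  have h2 : ∑ e ∈ D, ENNReal.ofReal ((g (Quot.out e).1 - g (Quot.out e).2) ^ 2) =
      ∑ p ∈ D.image (fun e => (Quot.out e : V × V)),
        (if G.Adj p.1 p.2 then ENNReal.ofReal ((g p.1 - g p.2) ^ 2) else 0) := by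
    rw [Finset.sum_image (fun e _ e' _ hh => out_inj hh)]
    refine Finset.sum_congr rfl fun e he => ?_
    have : G.Adj (Quot.out e).1 (Quot.out e).2 := by
      rw [← SimpleGraph.mem_edgeSet, out_s]; exact hD e he
    rw [if_pos this]
  rw [h2]
  refine (ENNReal.sum_le_tsum (D.image (fun e => (Quot.out e : V × V)))).trans (le_of_eq ?_)
  rw [← h1]

theorem c3 (h1 : S_EN) (h2 : S_TF) (h3 : S_D1) (h4 : S_D2) : S_C3 := by
  classical
  intro V G hO hR x e he ε hε
  obtain ⟨hInf, hCt, hCon, hlf⟩ := id hO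
  set a := (Quot.out e).1 with ha
  set b := (Quot.out e).2 with hb
  have hab : s(a, b) = e := out_s e
  have hadj : G.Adj a b := by rw [← SimpleGraph.mem_edgeSet, hab]; exact he
  have hη : (0 : ℝ) < ε / 2 := by positivity
  set η := ε / 2 with hηd
  set δ : ℝ := η / (1 + 1 / η) with hδd
  have hδ : 0 < δ := by positivity
  obtain ⟨g, hg01, hgB, hgf, hgE⟩ := h2 V G hO hR {a, b} δ hδ
  refine ⟨insert a (insert b hgf.toFinset), fun A hBA hxA hAc => ?_⟩
  have haA : a ∈ A := hBA (by simp)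
  have hbA : b ∈ A := hBA (by simp)
  have hg0 : ∀ v, v ∉ A → g v = 0 := by
    intro v hv
    by_contra h
    exact hv (hBA (by simp [h]))
  have hga : g a = 1 := hgB a (by simp)
  have hgb : g b = 1 := hgB b (by simp)
  have hf : (cls (rst G (A : Set V)) x).Finite :=
    Set.Finite.subset A.finite_toSet (fun w hw => by simpa using cls_sub G A x hxA w hw)
  have hD := finD G A hlf
  obtain ⟨-, -, hN1, hfr, -⟩ := h3 V (rst G (A : Set V)) x hf
  obtain ⟨-, hN2, hwr, -⟩ := h4 V G A x hInf hCon hD hf hxA hAc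
  set M := gC (rst G (A : Set V)) x hf with hM
  set N := gW G A hD with hN
  -- membership in the edge sets
  have hMD : ∀ e' : Sym2 V, e' ∈ G.edgeSet → (Quot.out e').1 ∈ A → (Quot.out e').2 ∈ A →
      e' ∈ M.D := by
    intro e' h h' h''
    simp only [hM, gC, Finset.mem_filter]
    constructor
    · rw [← out_s e', Finset.mk_mem_sym2_iff]
      exact ⟨by simpa using hAc _ h', by simpa using hAc _ h''⟩
    · rw [← out_s e', SimpleGraph.mem_edgeSet, rst_adj]
      refine ⟨?_, by simpa using h', by simpa using h''⟩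
      rw [← SimpleGraph.mem_edgeSet, out_s]; exact h
  have heM : e ∈ M.D := hMD e he haA hbA
  have hND : ∀ e', e' ∈ N.D ↔ e' ∈ G.edgeSet ∧ ∃ v ∈ e', v ∈ A := by
    intro e'
    simp [hN, gW]
  have heN : e ∈ N.D := (hND e).2 ⟨he, a, by rw [← hab]; simp, haA⟩
  have hMs : ∀ e', M.s e' = (Quot.out e').1 := fun _ => rfl
  have hMt : ∀ e', M.t e' = (Quot.out e').2 := fun _ => rfl
  have hNs : ∀ e', N.s e' = piA A (Quot.out e').1 := fun _ => rfl
  have hNt : ∀ e', N.t e' = piA A (Quot.out e').2 := fun _ => rfl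
  have hp1 : ∀ v, v ∈ A → piA A v = some v := fun v hv => by simp [piA, hv]
  have hp2 : ∀ v, v ∉ A → piA A v = none := fun v hv => by simp [piA, hv]
  obtain ⟨-, f, hfa, hfb, hf01, hfE⟩ := h1 V (Sym2 V) M e hN1 heM (by
    rw [hMs, hMt]; exact hadj.ne)
  obtain ⟨hEN, -⟩ := h1 (Option V) (Sym2 V) N e hN2 heN (by
    rw [hNs, hNt, ← ha, ← hb, hp1 a haA, hp1 b hbA]
    simpa using hadj.ne)
  rw [← hfr] at hfE
  set p := fr (rst G (A : Set V)) x {e} {e} with hp
  set q := wr G A {e} {e} with hq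
  set EM := ∑ g' ∈ M.D, (f (M.s g') - f (M.t g')) ^ 2 with hEM
  set f' : Option V → ℝ := fun o => match o with
    | none => 0
    | some v => f v * g v with hf'
  have hEN' := hEN f' (by
      rw [hNs, ← ha, hp1 a haA]
      simp only [hf', hga, mul_one]
      exact hfa) (by
      rw [hNt, ← hb, hp1 b hbA]
      simp only [hf', hgb, mul_one]
      exact hfb)
  rw [← hwr] at hEN'
  -- bounds for p and q
  have hq1 : q ≤ 1 := by
    rw [hq, hwr]
    refine div_le_one_of_le₀ ?_ (by positivity)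
    exact_mod_cast NS_le _ _
  have hq0 : 0 ≤ q := by rw [hq, hwr]; positivity
  have hp1' : p ≤ 1 := by
    rw [hp, hfr]
    refine div_le_one_of_le₀ ?_ (by positivity)
    exact_mod_cast NS_le _ _
  have hp0 : 0 ≤ p := by rw [hp, hfr]; positivity
  -- the energy inequality
  have hEg : ∑ g' ∈ N.D, (g (Quot.out g').1 - g (Quot.out g').2) ^ 2 ≤ δ :=
    energy G g δ hδ.le N.D (fun e' he' => ((hND e').1 he').1) hgE
  have hkey : ∑ g' ∈ N.D, (f' (N.s g') - f' (N.t g')) ^ 2 ≤ (1 + η) * EM + (1 + 1 / η) * δ := by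
    have hpt : ∀ g' ∈ N.D, (f' (N.s g') - f' (N.t g')) ^ 2 ≤
        (1 + η) * (if g' ∈ M.D then (f (M.s g') - f (M.t g')) ^ 2 else 0) +
          (1 + 1 / η) * (g (Quot.out g').1 - g (Quot.out g').2) ^ 2 := by
      intro g' hg'
      have hG := ((hND g').1 hg').1
      rw [hNs, hNt, hMs, hMt]
      set c := (Quot.out g').1 with hc
      set d := (Quot.out g').2 with hd
      have hnn : 0 ≤ (1 + η) * (if g' ∈ M.D then (f c - f d) ^ 2 else 0) := by
        split_ifs
        · positivity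
        · simp
      by_cases hcA : c ∈ A
      · by_cases hdA : d ∈ A
        · rw [if_pos (hMD g' hG hcA hdA), hp1 c hcA, hp1 d hdA]
          exact ineq1 hη (hf01 c).1 (hf01 c).2 (hf01 d).1 (hf01 d).2 (hg01 c).1 (hg01 c).2
        · rw [hp1 c hcA, hp2 d hdA, hg0 d hdA]
          have := ineq2 (g1 := g c) hη (hf01 c).1 (hf01 c).2
          simp only [hf', sub_zero]
          linarith
      · by_cases hdA : d ∈ A
        · rw [hp2 c hcA, hp1 d hdA, hg0 c hcA]
          have := ineq2 (g1 := g d) hη (hf01 d).1 (hf01 d).2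
          simp only [hf', zero_sub, neg_sq]
          linarith
        · rw [hp2 c hcA, hp2 d hdA, hg0 c hcA, hg0 d hdA]
          simp only [sub_self]
          have : (1 + 1 / η) * (0 : ℝ) ^ 2 = 0 := by ring
          rw [this]
          simpa using hnn
    calc ∑ g' ∈ N.D, (f' (N.s g') - f' (N.t g')) ^ 2
        ≤ ∑ g' ∈ N.D, ((1 + η) * (if g' ∈ M.D then (f (M.s g') - f (M.t g')) ^ 2 else 0) +
          (1 + 1 / η) * (g (Quot.out g').1 - g (Quot.out g').2) ^ 2) := Finset.sum_le_sum hpt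
      _ = (1 + η) * ∑ g' ∈ N.D, (if g' ∈ M.D then (f (M.s g') - f (M.t g')) ^ 2 else 0) +
          (1 + 1 / η) * ∑ g' ∈ N.D, (g (Quot.out g').1 - g (Quot.out g').2) ^ 2 := by
          rw [Finset.sum_add_distrib, Finset.mul_sum, Finset.mul_sum]
      _ ≤ (1 + η) * EM + (1 + 1 / η) * δ := by
          have h5 : ∑ g' ∈ N.D, (if g' ∈ M.D then (f (M.s g') - f (M.t g')) ^ 2 else 0) ≤ EM := by
            rw [← Finset.sum_filter]
            refine Finset.sum_le_sum_of_subset_of_nonneg ?_ (fun _ _ _ => sq_nonneg _)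
            intro g' hg'
            exact (Finset.mem_filter.1 hg').2
          have h6 : 0 < 1 / η := by positivity
          have h7 := mul_le_mul_of_nonneg_left h5 (by linarith : (0 : ℝ) ≤ 1 + η)
          have h8 := mul_le_mul_of_nonneg_left hEg (by linarith : (0 : ℝ) ≤ 1 + 1 / η)
          linarith
  have hδ' : (1 + 1 / η) * δ = η := by
    rw [hδd]
    have : (1 + 1 / η) ≠ 0 := by positivity
    field_simp
  rw [hδ'] at hkey
  -- conclusion
  have h9 : 1 ≤ q * ((1 + η) * EM + η) := hEN'.trans (mul_le_mul_of_nonneg_left hkey hq0)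
  have h10 : p ≤ q * (1 + η) + q * p * η := by
    have := mul_le_mul_of_nonneg_left h9 hp0
    have h11 : p * (q * ((1 + η) * EM + η)) = q * (1 + η) * (p * EM) + q * p * η := by ring
    rw [h11, hfE] at this
    linarith
  have h12 : q * p * η ≤ η := by
    have : q * p ≤ 1 := by nlinarith
    nlinarith
  have h13 : q * η ≤ η := by nlinarith
  have : ε = η + η := by rw [hηd]; ring
  rw [this]
  linarith

end Pool.Agent.Y826.WU
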